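import Mathlib
import Pool.Agent.TH722.AF.Fin

/-!
# The addition formula for the f-invariant of algebraic actions of free groups

For an exact sequence `0 → A → B → C → 0` of modules over the integral group ring of a free
group of finite rank, such that the three dual actions have finite generating partitions,
the f-invariant of the dual of `B` is the sum of those of the duals of `A` and `C`.
-/

set_option autoImplicit false

open MeasureTheory Filter Set
open scoped ENNReal Topology

namespace Pool.Agent.Results.MP_46d37e_an.AdditionFormula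

open Pool.Agent.TH722.AF (Dual haar act)

/-- Shannon entropy of a partition, given by a labelling `φ : X → A` of its cells. -/
noncomputable def shannon {X A : Type*} [MeasurableSpace X] (μ : Measure X) (φ : X → A) : ℝ :=
  ∑' a, Real.negMulLog (μ.real {x | φ x = a})

/-- `F(α) = (1-2r) H(α) + ∑_i H(α ∨ s_i α)` (the cell of `s_i α` containing `x` is labelled
by `φ (s_i⁻¹ x)`). -/
noncomputable def bowenF {r : ℕ} {X A : Type*} [MeasurableSpace X] (μ : Measure X)
    (T : FreeGroup (Fin r) → X → X) (φ : X → A) : ℝ :=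
  (1 - 2 * (r : ℝ)) * shannon μ φ +
    ∑ i : Fin r, shannon μ (fun x => (φ x, φ (T (FreeGroup.of i)⁻¹ x)))

/-- The labelling of the partition `α^n`, the join of all `g α` with `|g| ≤ n`. -/
def ballJoin {r : ℕ} {X A : Type*} (T : FreeGroup (Fin r) → X → X) (φ : X → A) (n : ℕ) (x : X) :
    {g : FreeGroup (Fin r) // g.norm ≤ n} → A :=
  fun g => φ (T g.1⁻¹ x)

/-- `φ` labels a finite measurable partition whose translates generate the sigma-algebra modulo
null sets. -/
structure IsGenPartition {r : ℕ} {X : Type*} [MeasurableSpace X] (μ : Measure X)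
    (T : FreeGroup (Fin r) → X → X) {k : ℕ} (φ : X → Fin k) : Prop where
  meas : Measurable φ
  gen : ∀ B : Set X, MeasurableSet B → ∃ B' : Set X,
    MeasurableSet[⨆ g, MeasurableSpace.comap (fun x => φ (T g x)) ⊤] B' ∧ B =ᵐ[μ] B'

/-- `L` is the f-invariant: a finite generating partition exists, and `F(α^n) → L` for every
finite generating partition `α`. -/
def HasFInvariant {r : ℕ} {X : Type*} [MeasurableSpace X] (μ : Measure X)
    (T : FreeGroup (Fin r) → X → X) (L : EReal) : Prop :=
  (∃ (k : ℕ) (φ : X → Fin k), IsGenPartition μ T φ) ∧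
  ∀ (k : ℕ) (φ : X → Fin k), IsGenPartition μ T φ →
    Tendsto (fun n : ℕ => ((bowenF μ T (ballJoin T φ n) : ℝ) : EReal)) atTop (𝓝 L)

section bridge

open Pool.Agent.TH722.FI Pool.Agent.TH722.AF Pool.Agent.TH722.AF.Jobs
open Pool.Agent.TH480.FI (lab_pair lab_comp lab_shannon lab_finite)

variable {r : ℕ} {X A : Type*} [MeasurableSpace X] {μ : Measure X} [IsProbabilityMeasure μ]

theorem bowenF_eq (T : FreeGroup (Fin r) → X → X) (hT : PmpAct μ T) {φ : X → A}
    (h : IsLab μ φ) : bowenF μ T φ = BF μ T φ := by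
  unfold bowenF BF
  have h1 : shannon μ φ = ent μ φ := (lab_shannon h.meas h.cnt).2.symm
  rw [h1]
  congr 1
  refine Finset.sum_congr rfl fun i _ => ?_
  have h2 := (lab_pair h (lab_comp (hT.mp (FreeGroup.of i)⁻¹) h).1).1
  exact (lab_shannon h2.meas h2.cnt).2.symm

theorem isLab_of_gen (T : FreeGroup (Fin r) → X → X) {k : ℕ} {φ : X → Fin k}
    (h : IsGenPartition μ T φ) : IsLab μ φ :=
  lab_finite (fun v => h.meas (measurableSet_singleton v)) (Set.toFinite _)

theorem tendsto_of_gen (T : FreeGroup (Fin r) → X → X) (hT : PmpAct μ T) {k : ℕ} {φ : X → Fin k}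
    (h : IsGenPartition μ T φ) :
    Tendsto (fun n : ℕ => ((bowenF μ T (ballJoin T φ n) : ℝ) : EReal)) atTop
      (𝓝 (⨅ n, ((BF μ T (ballLab T φ n) : ℝ) : EReal))) := by
  have hl := isLab_of_gen T h
  have h1 := antitone_lim _ (bf_anti T hT hl)
  refine h1.congr fun n => ?_
  congr 1
  exact (bowenF_eq T hT (ball_lab T hT hl n).1).symm

theorem hasF_of_gen (T : FreeGroup (Fin r) → X → X) (hT : PmpAct μ T) {k : ℕ} {φ : X → Fin k}
    (h : IsGenPartition μ T φ) :
    HasFInvariant μ T (⨅ n, ((BF μ T (ballLab T φ n) : ℝ) : EReal)) := by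
  refine ⟨⟨k, φ, h⟩, fun k' φ' h' => ?_⟩
  rw [inf_eq_of_gen T hT (isLab_of_gen T h) (isLab_of_gen T h') h.gen h'.gen]
  exact tendsto_of_gen T hT h'

end bridge

universe u

/-- The addition formula for the f-invariant. Modules carry the discrete topology, `Dual A` is
the Pontryagin dual of `A`, `haar A` its normalised Haar measure and `act` the dual action
`(g χ)(a) = χ (g⁻¹ a)`. -/
theorem result (r : ℕ) {A B C : Type u} [AddCommGroup A] [TopologicalSpace A]
    [DiscreteTopology A] [AddCommGroup B] [TopologicalSpace B] [DiscreteTopology B]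
    [AddCommGroup C] [TopologicalSpace C] [DiscreteTopology C]
    [Module (MonoidAlgebra ℤ (FreeGroup (Fin r))) A]
    [Module (MonoidAlgebra ℤ (FreeGroup (Fin r))) B]
    [Module (MonoidAlgebra ℤ (FreeGroup (Fin r))) C]
    (i : A →ₗ[MonoidAlgebra ℤ (FreeGroup (Fin r))] B)
    (p : B →ₗ[MonoidAlgebra ℤ (FreeGroup (Fin r))] C)
    (hi : Function.Injective i) (hp : Function.Surjective p)
    (hex : LinearMap.range i = LinearMap.ker p)
    (hA : ∃ (k : ℕ) (φ : Dual A → Fin k), IsGenPartition (haar A) (act (r := r)) φ)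
    (hB : ∃ (k : ℕ) (φ : Dual B → Fin k), IsGenPartition (haar B) (act (r := r)) φ)
    (hC : ∃ (k : ℕ) (φ : Dual C → Fin k), IsGenPartition (haar C) (act (r := r)) φ) :
    ∃ fA fB fC : EReal, fA ≠ ⊤ ∧ fB ≠ ⊤ ∧ fC ≠ ⊤ ∧
      HasFInvariant (haar A) (act (r := r)) fA ∧ HasFInvariant (haar B) (act (r := r)) fB ∧
      HasFInvariant (haar C) (act (r := r)) fC ∧ fB = fA + fC := by
  obtain ⟨kA, φA, gA⟩ := hA
  obtain ⟨kB, φB, gB⟩ := hB
  obtain ⟨kC, φC, gC⟩ := hC
  obtain ⟨pA, -, aA⟩ := Pool.Agent.TH722.AF.Jobs.act_pmp (r := r) (A := A)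
  obtain ⟨pB, -, aB⟩ := Pool.Agent.TH722.AF.Jobs.act_pmp (r := r) (A := B)
  obtain ⟨pC, -, aC⟩ := Pool.Agent.TH722.AF.Jobs.act_pmp (r := r) (A := C)
  have hex' : ∀ b, p b = 0 ↔ ∃ a, i a = b := by
    intro b
    rw [← LinearMap.mem_ker, ← hex, LinearMap.mem_range]
  have key := Pool.Agent.TH722.AF.main_working i p hi hp hex' φA φB φC gA.meas gB.meas gC.meas
    gA.gen gB.gen gC.gen
  refine ⟨_, _, _, ?_, ?_, ?_, hasF_of_gen _ aA gA, hasF_of_gen _ aB gB, hasF_of_gen _ aC gC,
    key⟩ <;>
  exact ne_of_lt (lt_of_le_of_lt (iInf_le _ 0) (EReal.coe_lt_top _))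

end Pool.Agent.Results.MP_46d37e_an.AdditionFormula
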